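import Mathlib

set_option autoImplicit false

/-! Copied from the library proof of S09522 (module Pool.Graph.R_pool_sql_team_22c7b01f.S09522). -/

namespace Pool.Agent.H30PB

section
variable {V : Type} [Fintype V] [DecidableEq V] (G : SimpleGraph V)

def Rch (A B : V → ℕ) : Prop :=
  Relation.ReflTransGen (fun A B : V → ℕ => ∃ u v : V, G.Adj u v ∧ 2 ≤ A u ∧
    B = Function.update (Function.update A u (A u - 2)) v (A v + 1)) A B

variable {G}

omit [Fintype V] in
theorem Rch.add {A B : V → ℕ} (h : Rch G A B) (X : V → ℕ) : Rch G (A + X) (B + X) := by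
  induction h with
  | refl => exact Relation.ReflTransGen.refl
  | tail _ hs ih =>
    obtain ⟨u, v, huv, h2, rfl⟩ := hs
    refine Relation.ReflTransGen.tail ih ⟨u, v, huv, by simp only [Pi.add_apply]; omega, ?_⟩
    funext w
    by_cases h1 : w = v
    · subst h1; simp only [Pi.add_apply, Function.update_self]; omega
    · by_cases h3 : w = u
      · subst h3
        simp only [Pi.add_apply, Function.update_of_ne h1, Function.update_self]; omega
      · simp only [Pi.add_apply, Function.update_of_ne h1, Function.update_of_ne h3]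

omit [Fintype V] in
theorem edge_move {u v : V} (huv : G.Adj u v) (k : ℕ) : ∀ A : V → ℕ, 2 * k ≤ A u →
    ∃ B, Rch G A B ∧ A v + k ≤ B v := by
  induction k with
  | zero => exact fun A _ => ⟨A, Relation.ReflTransGen.refl, le_rfl⟩
  | succ k ih =>
    intro A hA
    obtain ⟨B, h1, h2⟩ := ih (Function.update (Function.update A u (A u - 2)) v (A v + 1)) (by
      rw [Function.update_of_ne huv.ne, Function.update_self]; omega)
    refine ⟨B, Relation.ReflTransGen.head ⟨u, v, huv, by omega, rfl⟩ h1, ?_⟩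
    rw [Function.update_self] at h2
    omega

omit [Fintype V] in
theorem walk_move {u r : V} (p : G.Walk u r) : ∀ A : V → ℕ, 2 ^ p.length ≤ A u →
    ∃ B, Rch G A B ∧ 1 ≤ B r := by
  induction p with
  | nil => exact fun A h => ⟨A, Relation.ReflTransGen.refl, by simpa using h⟩
  | cons huv p ih =>
    intro A hA
    obtain ⟨B, h1, h2⟩ := edge_move huv (2 ^ p.length) A (by
      rw [SimpleGraph.Walk.length_cons, pow_succ] at hA; omega)
    obtain ⟨C, h3, h4⟩ := ih B (by omega)
    exact ⟨C, h1.trans h3, h4⟩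

variable (G) in
def Near (n : ℕ) (u v : V) : Prop := ∃ p : G.Walk u v, p.length ≤ n

omit [Fintype V] [DecidableEq V] in
theorem Near.trans {n m : ℕ} {u v w : V} (h1 : Near G n u v) (h2 : Near G m v w) :
    Near G (n + m) u w := by
  obtain ⟨p, hp⟩ := h1
  obtain ⟨q, hq⟩ := h2
  exact ⟨p.append q, by rw [SimpleGraph.Walk.length_append]; omega⟩

omit [Fintype V] [DecidableEq V] in
theorem Near.symm {n : ℕ} {u v : V} (h1 : Near G n u v) : Near G n v u := by
  obtain ⟨p, hp⟩ := h1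
  exact ⟨p.reverse, by rwa [SimpleGraph.Walk.length_reverse]⟩

omit [Fintype V] [DecidableEq V] in
theorem Near.mono {n m : ℕ} {u v : V} (h1 : Near G n u v) (h : n ≤ m) : Near G m u v := by
  obtain ⟨p, hp⟩ := h1
  exact ⟨p, hp.trans h⟩

omit [Fintype V] [DecidableEq V] in
theorem Near.one {u v : V} (h : u ≠ v → G.Adj u v) : Near G 1 u v := by
  by_cases e : u = v
  · subst e; exact ⟨.nil, by simp⟩
  · exact ⟨(h e).toWalk, by simp⟩

omit [Fintype V] in
theorem many {ι : Type} [DecidableEq ι] (s : ι → V) (r : V) (L : ℕ) (S : Finset ι) :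
    (∀ z ∈ S, Near G L (s z) r) → ∀ X : V → ℕ,
      ∃ B, Rch G (∑ z ∈ S, Pi.single (s z) (2 ^ L) + X) B ∧ S.card ≤ B r := by
  induction S using Finset.induction_on with
  | empty => exact fun _ X => ⟨_, Relation.ReflTransGen.refl, by simp⟩
  | insert z S hz ih =>
    intro h X
    obtain ⟨p, hp⟩ := h z (Finset.mem_insert_self _ _)
    obtain ⟨C, h3, h4⟩ := walk_move p (Pi.single (s z) (2 ^ L)) (by
      rw [Pi.single_eq_same]; exact Nat.pow_le_pow_right (by norm_num) hp)
    obtain ⟨B, h1, h2⟩ := ih (fun w hw => h w (Finset.mem_insert_of_mem hw)) X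
    refine ⟨C + B, ?_, ?_⟩
    · rw [Finset.sum_insert hz, add_assoc]
      refine (h3.add _).trans ?_
      rw [add_comm C, add_comm C]
      exact h1.add C
    · rw [Finset.card_insert_of_notMem hz, Pi.add_apply]; omega

theorem weight (ψ : V → ℕ) (hψ : ∀ u v, G.Adj u v → ψ v ≤ ψ u + 1) {A B : V → ℕ}
    (h : Rch G A B) : ∑ w, B w * 2 ^ ψ w ≤ ∑ w, A w * 2 ^ ψ w := by
  induction h with
  | refl => exact le_rfl
  | @tail B _ _ hs ih =>
    obtain ⟨u, v, huv, h2, rfl⟩ := hs
    refine le_trans ?_ ih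
    have e : ∀ w, Function.update (Function.update B u (B u - 2)) v (B v + 1) w * 2 ^ ψ w +
        (if w = u then 2 * 2 ^ ψ u else 0) = B w * 2 ^ ψ w + (if w = v then 2 ^ ψ v else 0) := by
      intro w
      by_cases h1 : w = v
      · subst h1
        simp only [Function.update_self, if_neg huv.ne', if_true]; ring
      · by_cases h3 : w = u
        · subst h3
          simp only [Function.update_of_ne h1, Function.update_self, if_true, if_neg h1]
          obtain ⟨c, hc⟩ := Nat.exists_eq_add_of_le h2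
          rw [hc, Nat.add_sub_cancel_left]; ring
        · simp only [Function.update_of_ne h1, Function.update_of_ne h3, if_neg h1, if_neg h3]
    have := Finset.sum_congr (s₁ := Finset.univ) rfl (fun w _ => e w)
    simp only [Finset.sum_add_distrib, Finset.sum_ite_eq', Finset.mem_univ, if_true] at this
    have h5 : 2 ^ ψ v ≤ 2 ^ (ψ u + 1) := Nat.pow_le_pow_right (by norm_num) (hψ u v huv)
    rw [pow_succ] at h5
    omega

end

section
variable {Ω : Type} (R : Ω → Ω → Prop) (h : ℕ)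

def GG : SimpleGraph (Ω × Ω × Fin (h + 1)) := SimpleGraph.fromRel fun a b =>
  (a.1 = b.1 ∧ a.2.2.val = 0 ∧ b.2.2.val = 0) ∨
  (a.1 = b.1 ∧ a.2.1 = b.2.1 ∧ b.2.2.val = a.2.2.val + 1) ∨
  (b.1 = a.2.1 ∧ b.2.1 = a.1 ∧ a.2.2.val = h ∧ b.2.2.val = h ∧ R a.1 a.2.1)

theorem near1 (x y : Ω) (j : ℕ) : ∀ hj : j < h + 1, Near (GG R h) j (x, y, 0) (x, y, ⟨j, hj⟩) := by
  induction j with
  | zero => exact fun _ => ⟨.nil, le_rfl⟩
  | succ j ih =>
    intro hj
    exact (ih (by omega)).trans (Near.one fun hne =>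
      (SimpleGraph.fromRel_adj _ _ _).2 ⟨hne, Or.inl (Or.inr (Or.inl ⟨rfl, rfl, rfl⟩))⟩)

theorem near2 (x y y' : Ω) : Near (GG R h) 1 (x, y, 0) (x, y', 0) :=
  Near.one fun hne => (SimpleGraph.fromRel_adj _ _ _).2 ⟨hne, Or.inl (Or.inl ⟨rfl, rfl, rfl⟩)⟩

theorem near3 (z : Ω) (r : Ω × Ω × Fin (h + 1)) (hz : R z r.1) :
    Near (GG R h) (3 * h + 3) (z, z, 0) r := by
  obtain ⟨x, y, j, hj⟩ := r
  have a3 : Near (GG R h) 1 (z, x, ⟨h, by omega⟩) (x, z, ⟨h, by omega⟩) :=
    Near.one fun hne => (SimpleGraph.fromRel_adj _ _ _).2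
      ⟨hne, Or.inl (Or.inr (Or.inr ⟨rfl, rfl, rfl, rfl, hz⟩))⟩
  exact ((((((near2 R h z z x).trans (near1 R h z x h (by omega))).trans a3).trans
    (near1 R h x z h (by omega)).symm).trans (near2 R h x z y)).trans
      (near1 R h x y j hj)).mono (by omega)

open Classical in
noncomputable def Dv (v x : Ω) : ℕ := if x = v then 0 else if R v x then 2 * h + 1 else 4 * h + 2

open Classical in
noncomputable def phi (v : Ω) (a : Ω × Ω × Fin (h + 1)) : ℕ :=
  if R a.1 a.2.1 then min (Dv R h v a.1 + a.2.2.val) (Dv R h v a.2.1 + (2 * h + 1 - a.2.2.val))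
  else Dv R h v a.1 + a.2.2.val

theorem Dv_le (hR : ∀ x y, R x y → R y x) (v x y : Ω) (hxy : R x y) :
    Dv R h v x ≤ Dv R h v y + (2 * h + 1) := by
  unfold Dv
  by_cases h1 : y = v
  · subst h1
    have := hR _ _ hxy
    split_ifs <;> omega
  · split_ifs <;> omega

theorem phi_lip (hR : ∀ x y, R x y → R y x) (v : Ω) (a b : Ω × Ω × Fin (h + 1))
    (hab : (GG R h).Adj a b) : phi R h v a ≤ phi R h v b + 1 := by
  obtain ⟨x, y, j, hj⟩ := a
  obtain ⟨x', y', j', hj'⟩ := b
  have k1 := Dv_le R h hR v x y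
  have k2 := Dv_le R h hR v x' y'
  rcases ((SimpleGraph.fromRel_adj _ _ _).1 hab).2 with
    (⟨e1, e2, e3⟩ | ⟨e1, e2, e3⟩ | ⟨e1, e2, e3, e4, e5⟩) |
    (⟨e1, e2, e3⟩ | ⟨e1, e2, e3⟩ | ⟨e1, e2, e3, e4, e5⟩) <;> simp only at e1 e2 e3
  · subst e1 e2 e3
    simp only [phi]
    split_ifs with c1 c2 c2
    · have := k2 c2; omega
    · omega
    · have := k2 c2; omega
    · omega
  · subst e1 e2 e3
    simp only [phi]
    split_ifs <;> omega
  · subst e1 e2
    simp only at e4 e5
    simp only [phi, if_pos e5, if_pos (hR _ _ e5)]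
    omega
  · subst e1 e2 e3
    simp only [phi]
    split_ifs with c1 c2 c2
    · have := k2 c2; omega
    · omega
    · have := k2 c2; omega
    · omega
  · subst e1 e2 e3
    simp only [phi]
    split_ifs <;> omega
  · subst e1 e2
    simp only at e4 e5
    simp only [phi, if_pos e5, if_pos (hR _ _ e5)]
    omega

theorem lower [Fintype Ω] [DecidableEq Ω] (hR : ∀ x y, R x y → R y x)
    (hfar : ∀ S : Finset Ω, S.card ≤ 2 * 2 ^ (4 * h + 2) → ∃ v, v ∉ S ∧ ∀ x ∈ S, ¬ R v x)
    (E : Ω × Ω × Fin (h + 1) → ℕ) (hE : ∀ r, ∃ E', Rch (GG R h) E E' ∧ 1 ≤ E' r) :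
    2 ^ (4 * h + 2) ≤ ∑ w, E w := by
  by_contra hc
  let T := Finset.univ.filter fun w => E w ≠ 0
  have hT : T.card ≤ ∑ w, E w := by
    rw [Finset.card_eq_sum_ones, Finset.sum_filter]
    refine Finset.sum_le_sum fun w _ => ?_
    split_ifs <;> omega
  obtain ⟨v, hv1, hv2⟩ := hfar (T.image (fun w => w.1) ∪ T.image (fun w => w.2.1)) (by
    have := Finset.card_union_le (T.image (fun w => w.1)) (T.image (fun w => w.2.1))
    have h1 := Finset.card_image_le (s := T) (f := fun w => w.1)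
    have h2 := Finset.card_image_le (s := T) (f := fun w => w.2.1)
    omega)
  have hD : ∀ x ∈ T.image (fun w => w.1) ∪ T.image (fun w => w.2.1), Dv R h v x = 4 * h + 2 := by
    intro x hx
    unfold Dv
    rw [if_neg (fun e : x = v => hv1 (e ▸ hx)), if_neg (hv2 x hx)]
  obtain ⟨E', h1, h2⟩ := hE (v, v, 0)
  have hw := weight (fun w => 4 * h + 2 - phi R h v w) (fun a b hab => by
    have := phi_lip R h hR v a b hab
    omega) h1
  have e1 : ∑ w, E w * 2 ^ (4 * h + 2 - phi R h v w) = ∑ w, E w := by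
    refine Finset.sum_congr rfl fun w _ => ?_
    by_cases hw : E w = 0
    · simp [hw]
    · have hwT : w ∈ T := by simp [T, hw]
      have a1 := hD w.1 (Finset.mem_union_left _ (Finset.mem_image_of_mem _ hwT))
      have a2 := hD w.2.1 (Finset.mem_union_right _ (Finset.mem_image_of_mem _ hwT))
      have : 4 * h + 2 - phi R h v w = 0 := by
        unfold phi
        split_ifs <;> omega
      simp [this]
  have e2 : phi R h v (v, v, 0) = 0 := by
    simp [phi, Dv]
  have e3 := Finset.single_le_sum (f := fun w => E' w * 2 ^ (4 * h + 2 - phi R h v w))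
    (fun _ _ => Nat.zero_le _) (Finset.mem_univ (v, v, 0))
  simp only [e2, Nat.sub_zero] at e3
  have := Nat.mul_le_mul_right (2 ^ (4 * h + 2)) h2
  omega

end

abbrev Om (d : ℕ) := {x : Fin d → ZMod 2 // x ≠ 0}

def RR (d : ℕ) (x y : Om d) : Prop := x.1 ⬝ᵥ y.1 = 1

theorem z2 (a : ZMod 2) (h : a ≠ 0) : a = 1 := by revert a; decide

theorem z2' (a : ZMod 2) (h : a ≠ 1) : a = 0 := by revert a; decide

theorem ex_one {d : ℕ} (x : Om d) : ∃ i, x.1 i = 1 := by
  by_contra hc
  push Not at hc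
  exact x.2 (funext fun i => z2' _ (hc i))

theorem mk_ne {d : ℕ} (z x : Fin d → ZMod 2) (h : z ⬝ᵥ x = 1) : z ≠ 0 := by
  rintro rfl
  simp at h

theorem common {d : ℕ} (x y : Om d) : ∃ z, RR d z x ∧ RR d z y := by
  obtain ⟨i, hi⟩ := ex_one x
  obtain ⟨j, hj⟩ := ex_one y
  by_cases h1 : y.1 i = 1
  · have a1 : Pi.single i 1 ⬝ᵥ x.1 = 1 := by simp [hi]
    exact ⟨⟨_, mk_ne _ _ a1⟩, a1, by simp [RR, h1]⟩
  · by_cases h2 : x.1 j = 1
    · have a1 : Pi.single j 1 ⬝ᵥ x.1 = 1 := by simp [h2]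
      exact ⟨⟨_, mk_ne _ _ a1⟩, a1, by simp [RR, hj]⟩
    · have a1 : (Pi.single i 1 + Pi.single j 1) ⬝ᵥ x.1 = 1 := by simp [hi, z2' _ h2]
      exact ⟨⟨_, mk_ne _ _ a1⟩, a1, by simp [RR, hj, z2' _ h1]⟩

open Classical in
theorem half {d : ℕ} (x : Om d) :
    Fintype.card (Om d) ≤ 2 * (Finset.univ.filter fun z => RR d z x).card := by
  obtain ⟨i, hi⟩ := ex_one x
  have h1 := Finset.card_filter_add_card_filter_not (s := Finset.univ) (fun z => RR d z x)
  have h2 : (Finset.univ.filter fun z => ¬ RR d z x).card ≤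
      (Finset.univ.filter fun z => RR d z x).card := by
    have key : ∀ z : Om d, ¬ RR d z x → (z.1 + Pi.single i 1) ⬝ᵥ x.1 = 1 := fun z hz => by
      simp [hi, z2' _ hz]
    refine Finset.card_le_card_of_injOn
      (fun z => if hz : RR d z x then z else ⟨_, mk_ne _ _ (key z hz)⟩) ?_ ?_
    · intro z hz
      have hz' : ¬ RR d z x := by simpa using hz
      simp only [dif_neg hz', Finset.coe_filter, Finset.mem_univ, true_and, Set.mem_ofPred_eq]
      exact key z hz'
    · intro z hz w hw e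
      have hz' : ¬ RR d z x := by simpa using hz
      have hw' : ¬ RR d w x := by simpa using hw
      simp only [dif_neg hz', dif_neg hw', Subtype.mk.injEq, add_left_inj] at e
      exact Subtype.ext e
  rw [Finset.card_univ] at h1
  omega

theorem far (M : ℕ) (S : Finset (Om (2 * M + 1))) (hS : S.card ≤ M) :
    ∃ v, v ∉ S ∧ ∀ x ∈ S, ¬ RR _ v x := by
  classical
  obtain ⟨y, hy⟩ := Fintype.exists_lt_card_fiber_of_mul_lt_card
    (fun (v : Fin (2 * M + 1) → ZMod 2) (x : S) => v ⬝ᵥ x.1.1) (n := M + 1) (by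
      simp only [Fintype.card_fun, ZMod.card, Fintype.card_coe, Fintype.card_fin]
      have h1 : 2 ^ S.card ≤ 2 ^ M := Nat.pow_le_pow_right (by norm_num) hS
      have h2 : M + 1 < 2 ^ (M + 1) := Nat.lt_two_pow_self
      calc 2 ^ S.card * (M + 1) ≤ 2 ^ M * (M + 1) := Nat.mul_le_mul_right _ h1
        _ < 2 ^ M * 2 ^ (M + 1) := Nat.mul_lt_mul_of_pos_left h2 (by positivity)
        _ = 2 ^ (2 * M + 1) := by rw [← pow_add]; congr 1; omega)
  obtain ⟨w0, hw0⟩ := Finset.card_pos.1 (lt_of_le_of_lt (Nat.zero_le _) hy)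
  obtain ⟨w, hw1, hw2⟩ := Finset.exists_mem_notMem_of_card_lt_card
    (s := insert w0 (S.image fun x => x.1 + w0)) (lt_of_le_of_lt (by
      have := Finset.card_insert_le w0 (S.image fun x => x.1 + w0)
      have h1 := Finset.card_image_le (s := S) (f := fun x => x.1 + w0)
      omega) hy)
  simp only [Finset.mem_filter, Finset.mem_univ, true_and] at hw0 hw1
  simp only [Finset.mem_insert, Finset.mem_image, not_or, not_exists, not_and] at hw2
  refine ⟨⟨w - w0, sub_ne_zero.2 hw2.1⟩, fun hm => hw2.2 _ hm (by simp), fun x hx hr => ?_⟩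
  have := congrFun (hw1.trans hw0.symm) ⟨x, hx⟩
  simp only [RR, sub_dotProduct] at hr this
  rw [this, sub_self] at hr
  exact zero_ne_one hr

open Classical in
theorem exOm (M : ℕ) : ∃ (Ω : Type) (_ : Fintype Ω) (R : Ω → Ω → Prop), Nonempty Ω ∧
    (∀ x y, R x y → R y x) ∧ (∀ x y, ∃ z, R z x ∧ R z y) ∧
    (∀ x, Fintype.card Ω ≤ 2 * (Finset.univ.filter fun z => R z x).card) ∧
    ∀ S : Finset Ω, S.card ≤ M → ∃ v, v ∉ S ∧ ∀ x ∈ S, ¬ R v x := by
  refine ⟨Om (2 * M + 1), inferInstance, RR _, ⟨⟨fun _ => 1, fun e => ?_⟩⟩, fun x y hxy => ?_,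
    common, fun x => ?_, far M⟩
  · simpa using congrFun e 0
  · unfold RR at hxy ⊢
    rwa [dotProduct_comm]
  · convert half x



end Pool.Agent.H30PB
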